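import Pool.Agent.L7h59.NC.Def
import Pool.Agent.L7h59.TW.Tb

set_option autoImplicit false

/-! Project NC, part DOM (for functors with `K.map id = id`, as `K₀` and `K₁`). -/

open Matrix

namespace Pool.Agent.L7h44.NC

open Pool.Agent.L7h59.TW (RFun Blow k0 k1 blow_const)
open Pool.Agent.L7h59.NC

noncomputable section

theorem ma_ext {R M S : Type} [Ring R] [Group M] [Ring S] {f g : MonoidAlgebra R M →+* S}
    (h : ∀ a r, f (MonoidAlgebra.single a r) = g (MonoidAlgebra.single a r)) : f = g :=
  MonoidAlgebra.ringHom_ext (fun r => h 1 r) (fun a => h a 1)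

variable {R R' X : Type} [Ring R] [Ring R'] [Fintype X] [DecidableEq X]

/-- `a h ↦ θ(a) h` -/
def Th (θ : R →+* Matrix X X R') (H : Type) [Group H] :
    MonoidAlgebra R H →+* Matrix X X (MonoidAlgebra R' H) :=
  MonoidAlgebra.liftNCRingHom
    ((MonoidAlgebra.singleOneRingHom : R' →+* MonoidAlgebra R' H).mapMatrix.comp θ)
    (((Matrix.scalar X : MonoidAlgebra R' H →+* _) : MonoidAlgebra R' H →* _).comp
      (MonoidAlgebra.of R' H)) (by
      intro r h
      show _ = _
      ext1 x y
      show (((θ r).map (MonoidAlgebra.singleOneRingHom : R' →+* MonoidAlgebra R' H) *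
          Matrix.diagonal (fun _ : X => (MonoidAlgebra.single h (1 : R') : MonoidAlgebra R' H)) :
            Matrix X X (MonoidAlgebra R' H))) x y =
        ((Matrix.diagonal (fun _ : X => (MonoidAlgebra.single h (1 : R') : MonoidAlgebra R' H)) *
          (θ r).map (MonoidAlgebra.singleOneRingHom : R' →+* MonoidAlgebra R' H) :
            Matrix X X (MonoidAlgebra R' H))) x y
      rw [Matrix.mul_diagonal, Matrix.diagonal_mul]
      show MonoidAlgebra.single 1 (θ r x y) * MonoidAlgebra.single h 1 =
        MonoidAlgebra.single h 1 * MonoidAlgebra.single 1 (θ r x y)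
      rw [MonoidAlgebra.single_mul_single, MonoidAlgebra.single_mul_single, one_mul, mul_one,
        one_mul, mul_one])

theorem Th_single (θ : R →+* Matrix X X R') {H : Type} [Group H] (a : H) (r : R) (x y : X) :
    Th θ H (MonoidAlgebra.single a r) x y = MonoidAlgebra.single a (θ r x y) := by
  unfold Th
  rw [MonoidAlgebra.liftNCRingHom_single]
  show (((θ r).map (MonoidAlgebra.singleOneRingHom : R' →+* MonoidAlgebra R' H) *
      Matrix.diagonal (fun _ : X => (MonoidAlgebra.single a (1 : R') : MonoidAlgebra R' H)) :
        Matrix X X (MonoidAlgebra R' H))) x y = _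
  rw [Matrix.mul_diagonal]
  show MonoidAlgebra.single 1 (θ r x y) * MonoidAlgebra.single a 1 = _
  rw [MonoidAlgebra.single_mul_single, one_mul, mul_one]

/-- the transformation given by `θ` -/
def tT {K : RFun} (B : Blow K) (θ : R →+* Matrix X X R') : NT K R R' where
  f H _ := B.blow (Th θ H)
  nat H L _ _ φ x := by
    rw [B.blow_map, B.map_blow]
    congr 1
    apply congrArg
    apply ma_ext
    intro a r
    ext1 x y
    rw [RingHom.comp_apply, RingHom.comp_apply, RingHom.mapMatrix_apply, Matrix.map_apply]
    show Th θ L (MonoidAlgebra.mapDomain φ (MonoidAlgebra.single a r)) x y =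
      MonoidAlgebra.mapDomain φ _
    rw [MonoidAlgebra.mapDomain_single, Th_single, Th_single, MonoidAlgebra.mapDomain_single]

/-- the transformation given by `g` -/
def sT {K : RFun} (B : Blow K) (g : R' →+* R) : NT K R' R where
  f H _ := K.map (MonoidAlgebra.mapRingHom H g)
  nat H L _ _ φ x := by
    rw [B.map_map, B.map_map, MonoidAlgebra.mapRingHom_comp_mapDomainRingHom]

theorem dom (K : RFun) (hB : Nonempty (Blow K))
    (hid : ∀ (B : Type) [Ring B] (x : K.F B), K.map (RingHom.id B) x = x)
    (R R' X : Type) [Ring R] [Ring R'] [Fintype X] [DecidableEq X]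
    (θ : R →+* Matrix X X R') (g : R' →+* R) (u v : Matrix X X R)
    (huv : u * v = 1) (hvu : v * u = 1)
    (hθ : ∀ r : R, (θ r).map g = u * Matrix.scalar X r * v) :
    ∃ (t : NT K R R') (s : NT K R' R),
      ∀ (H : Type) [Group H] (x : K.F (MonoidAlgebra R H)), s.f H (t.f H x) = Fintype.card X • x := by
  obtain ⟨B⟩ := hB
  refine ⟨tT B θ, sT B g, fun H _ x => ?_⟩
  show K.map (MonoidAlgebra.mapRingHom H g) (B.blow (Th θ H) x) = _
  rw [B.map_blow]
  let D : MonoidAlgebra R H →+* Matrix X X (MonoidAlgebra R H) :=
    (Matrix.diagonalRingHom _ _).comp (RingHom.pi fun _ => RingHom.id _)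
  have hD : ∀ b, D b = Matrix.diagonal fun _ => b := fun b => rfl
  let f : R →+* MonoidAlgebra R H := MonoidAlgebra.singleOneRingHom
  have hconj : ∀ b, ((MonoidAlgebra.mapRingHom H g).mapMatrix.comp (Th θ H)) b =
      f.mapMatrix u * D b * f.mapMatrix v := by
    have key : ∀ b, ((MonoidAlgebra.mapRingHom H g).mapMatrix.comp (Th θ H)) b * f.mapMatrix u =
        f.mapMatrix u * D b := by
      intro b
      induction b using MonoidAlgebra.induction_linear with
      | zero => rw [map_zero, map_zero, zero_mul, mul_zero]
      | add x y hx hy => rw [map_add, map_add, add_mul, mul_add, hx, hy]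
      | single a r =>
        have h1 : (θ r).map g * u = u * Matrix.scalar X r := by
          rw [hθ, mul_assoc, hvu, mul_one]
        ext1 x y
        rw [hD, Matrix.mul_diagonal, Matrix.mul_apply]
        have h2 : ∀ j, ((MonoidAlgebra.mapRingHom H g).mapMatrix.comp (Th θ H))
            (MonoidAlgebra.single a r) x j * f.mapMatrix u j y =
            MonoidAlgebra.single a (g (θ r x j) * u j y) := by
          intro j
          rw [RingHom.comp_apply, RingHom.mapMatrix_apply, Matrix.map_apply, Th_single]
          have h3 : MonoidAlgebra.mapRingHom H g (MonoidAlgebra.single a (θ r x j)) =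
              MonoidAlgebra.single a (g (θ r x j)) := by simp
          rw [h3]
          show MonoidAlgebra.single a (g (θ r x j)) * MonoidAlgebra.single 1 (u j y) = _
          rw [MonoidAlgebra.single_mul_single, mul_one]
        rw [Finset.sum_congr rfl fun j _ => h2 j]
        have h4 : ∑ j, MonoidAlgebra.single a (g (θ r x j) * u j y) =
            MonoidAlgebra.single a (((θ r).map g * u) x y) := by
          rw [Matrix.mul_apply]
          exact (map_sum (MonoidAlgebra.singleAddHom a) _ _).symm
        rw [h4, h1]
        show MonoidAlgebra.single a (((u * Matrix.diagonal (fun _ : X => r) : Matrix X X R)) x y) =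
          MonoidAlgebra.single 1 (u x y) * MonoidAlgebra.single a r
        rw [Matrix.mul_diagonal, MonoidAlgebra.single_mul_single, one_mul]
    intro b
    rw [← key, mul_assoc, ← map_mul, huv, map_one, mul_one]
  rw [B.blow_conj D _ (f.mapMatrix u) (f.mapMatrix v) (by rw [← map_mul, huv, map_one])
    (by rw [← map_mul, hvu, map_one]) hconj, blow_const B D hD, hid]

theorem k0_id (B : Type) [Ring B] (x : k0.F B) : k0.map (RingHom.id B) x = x := by
  have h : ∀ z : FreeAbelianGroup (Σ n : ℕ, Pool.Agent.Y778.NK.IdMat B n),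
      Pool.Agent.Y778.NK.K0.map (RingHom.id B) (QuotientAddGroup.mk z) =
        (QuotientAddGroup.mk z : Pool.Agent.Y778.NK.K0 B) := by
    intro z
    induction z using FreeAbelianGroup.induction_on with
    | zero => exact map_zero _
    | of x => exact Pool.Agent.Y778.NK.K0.map_mk (RingHom.id B) x.2
    | neg x hx =>
      rw [QuotientAddGroup.mk_neg]
      exact (map_neg _ _).trans (congrArg _ hx)
    | add x y hx hy =>
      rw [QuotientAddGroup.mk_add]
      exact (map_add _ _ _).trans (congrArg₂ _ hx hy)
  obtain ⟨z, rfl⟩ := QuotientAddGroup.mk_surjective x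
  exact h z

theorem k1_id (B : Type) [Ring B] (x : k1.F B) : k1.map (RingHom.id B) x = x := by
  have h : ∀ z : FreeAbelianGroup (Σ n : ℕ, (Matrix (Fin n) (Fin n) B)ˣ),
      Pool.Agent.Y69.FJ.K1.map (RingHom.id B) (QuotientAddGroup.mk z) =
        (QuotientAddGroup.mk z : Pool.Agent.Y69.FJ.K1 B) := by
    intro z
    induction z using FreeAbelianGroup.induction_on with
    | zero => exact map_zero _
    | of x =>
      refine (Pool.Agent.Y69.FJ.K1.map_mk (RingHom.id B) x.2).trans ?_
      have : Pool.Agent.Y69.FJ.mapGL (RingHom.id B) x.2 = x.2 := by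
        ext i j
        rfl
      rw [this]
      rfl
    | neg x hx =>
      rw [QuotientAddGroup.mk_neg]
      exact (map_neg _ _).trans (congrArg _ hx)
    | add x y hx hy =>
      rw [QuotientAddGroup.mk_add]
      exact (map_add _ _ _).trans (congrArg₂ _ hx hy)
  obtain ⟨z, rfl⟩ := QuotientAddGroup.mk_surjective x
  exact h z

end

end Pool.Agent.L7h44.NC
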